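import Pool.Agent.Work.MP_1b6412_co.Final

/-! MP_1b6412_co, Q1: every Aronszajn tree graph has an `(ℵ₀,ℵ₁)`-graph or a graph `G_{ω₁}(S)`,
`S` stationary, as a minor. -/

set_option autoImplicit false

open Set Cardinal Ordinal Pool.Agent.AT

namespace Pool.Agent.Results.MP_1b6412_co.EveryAronszajnGraph

universe u

/-- Every `T`-graph of an Aronszajn tree `T` has as a minor an `(ℵ₀,ℵ₁)`-graph or a graph
`G_{ω₁}(S)` for a stationary set `S` of countable limit ordinals. -/
theorem result (T : Type u) [PartialOrder T] (hT : IsAronszajnTree T) (G : SimpleGraph T)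
    (hG : IsTreeGraph G) :
    (∃ (A B : Type u) (H : SimpleGraph (A ⊕ B)), IsAlephGraph H ∧ IsMinor H G) ∨
    (∃ (S : Set Om) (f : Om → ℕ → Om) (K : SimpleGraph SeqTree),
      IsStationary S ∧ (∀ s ∈ S, Order.IsSuccLimit s ∧ IsCofinalIn (f s) s) ∧
      IsTreeGraph K ∧ IsMinor (K.induce (vertexSet S f)) G) :=
  dichotomy T hT G hG

end Pool.Agent.Results.MP_1b6412_co.EveryAronszajnGraph
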